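import Mathlib

/-! # MP_ea0d02_nt: many primes = 1 mod 4 that do not divide D -/

set_option autoImplicit false

namespace Pool.Agent.Lib_helper29.UL

theorem primes_or (C : ℕ) : ∃ B : ℕ, ∀ D : ℕ, 0 < D → C ≤ D.primeFactors.card ∨
    ∃ P : Fin C → ℕ, Function.Injective P ∧
      ∀ i, (P i).Prime ∧ P i % 4 = 1 ∧ 7 < P i ∧ P i ≤ B ∧ ¬ P i ∣ D := by
  classical
  have hinf : Set.Infinite {p : ℕ | p.Prime ∧ p % 4 = 1 ∧ 7 < p} := by
    rw [Set.infinite_iff_exists_gt]
    intro a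
    obtain ⟨p, hp, hlt, hmod⟩ := Nat.exists_prime_gt_modEq_one (k := 4) (max a 7) (by norm_num)
    refine ⟨p, ⟨hp, ?_, lt_of_le_of_lt (le_max_right _ _) hlt⟩,
      lt_of_le_of_lt (le_max_left _ _) hlt⟩
    exact hmod
  obtain ⟨S, hS, hcard⟩ := hinf.exists_subset_card_eq (2 * C)
  refine ⟨S.sup id, ?_⟩
  intro D hD
  by_cases h : C ≤ D.primeFactors.card
  · exact Or.inl h
  · right
    have h1 : C ≤ (S \ D.primeFactors).card := by
      have := Finset.le_card_sdiff D.primeFactors S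
      omega
    obtain ⟨T, hT, hTc⟩ := Finset.exists_subset_card_eq h1
    let e := T.equivFinOfCardEq hTc
    refine ⟨fun i => (e.symm i : ℕ), ?_, ?_⟩
    · intro i j hij
      exact e.symm.injective (Subtype.ext hij)
    · intro i
      have hm := hT (e.symm i).2
      rw [Finset.mem_sdiff] at hm
      have hs := hS hm.1
      refine ⟨hs.1, hs.2.1, hs.2.2, Finset.le_sup (f := id) hm.1, ?_⟩
      intro hdvd
      exact hm.2 (Nat.mem_primeFactors.mpr ⟨hs.1, hdvd, hD.ne'⟩)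

end Pool.Agent.Lib_helper29.UL
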